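import Mathlib
import Pool.Agent.MP_fb6b45_ag.Main

set_option autoImplicit false

namespace Pool.Agent.Results.MP_fb6b45_ag.NoType33333

open Pool.Agent.MP_fb6b45_ag

/-- On an ordinary elliptic curve over an algebraically closed field of characteristic two no
rational function has ramification type `(3,3,3,3,3)`. -/
theorem result : ∀ (K : Type) [Field K] [CharP K 2] [IsAlgClosed K] (W : WeierstrassCurve K)
    [W.IsElliptic], W.j ≠ 0 → ∀ f : W.toAffine.FunctionField, ¬ HasType33333 K f :=
  fun _ _ _ _ W _ hj f => main W hj f

/-- The case of the question: the generic curve of genus one in characteristic two. -/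
theorem generic_case (W : WeierstrassCurve (AlgebraicClosure (RatFunc (ZMod 2)))) [W.IsElliptic]
    (hj : W.j = algebraMap (RatFunc (ZMod 2)) _ RatFunc.X) (f : W.toAffine.FunctionField) :
    ¬ HasType33333 (AlgebraicClosure (RatFunc (ZMod 2))) f :=
  result _ W (by rw [hj]; simpa using RatFunc.X_ne_zero) f

/-- Sanity check: these function fields have places. -/
theorem sanity (K : Type) [Field K] [CharP K 2] [IsAlgClosed K] (W : WeierstrassCurve K)
    [W.IsElliptic] (hj : W.j ≠ 0) : Nonempty (Place K W.toAffine.FunctionField) :=
  nonempty_place W hj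

end Pool.Agent.Results.MP_fb6b45_ag.NoType33333
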